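import Mathlib

set_option autoImplicit false
open CategoryTheory CategoryTheory.MonoidalCategory CategoryTheory.Limits

namespace Q2.V4

/-- The field with two elements. -/
abbrev k : Type := ZMod 2

/-- The Klein four group. -/
abbrev G : Type := Multiplicative (ZMod 2) × Multiplicative (ZMod 2)

instance : Fact (Nat.Prime 2) := ⟨Nat.prime_two⟩

/-- first generator -/
def ga : G := (Multiplicative.ofAdd 1, 1)
/-- second generator -/
def gb : G := (1, Multiplicative.ofAdd 1)

theorem ga_mul_self : ga * ga = 1 := by decide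
theorem gb_mul_self : gb * gb = 1 := by decide
theorem ga_mul_gb : ga * gb = gb * ga := by decide

theorem G_cases (g : G) : g = 1 ∨ g = ga ∨ g = gb ∨ g = ga * gb := by
  revert g; decide

theorem char2 {V : Type*} [AddCommGroup V] [Module k V] (v : V) : v + v = 0 := by
  have h : (2 : k) • v = v + v := two_smul k v
  rw [← h]
  have : (2 : k) = 0 := by decide
  rw [this, zero_smul]

/-- x = a + 1 acting -/
noncomputable def opx (A : Rep.{0} k G) : A.V →ₗ[k] A.V := A.ρ ga + LinearMap.id
/-- y = b + 1 acting -/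
noncomputable def opy (A : Rep.{0} k G) : A.V →ₗ[k] A.V := A.ρ gb + LinearMap.id
/-- the norm element xy -/
noncomputable def opn (A : Rep.{0} k G) : A.V →ₗ[k] A.V := opx A ∘ₗ opy A

theorem opx_apply (A : Rep.{0} k G) (v : A.V) : opx A v = A.ρ ga v + v := rfl
theorem opy_apply (A : Rep.{0} k G) (v : A.V) : opy A v = A.ρ gb v + v := rfl
theorem opn_apply (A : Rep.{0} k G) (v : A.V) : opn A v = opx A (opy A v) := rfl

theorem rho_ga (A : Rep.{0} k G) (v : A.V) : A.ρ ga v = opx A v + v := by
  rw [opx_apply, add_assoc, char2, add_zero]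
theorem rho_gb (A : Rep.{0} k G) (v : A.V) : A.ρ gb v = opy A v + v := by
  rw [opy_apply, add_assoc, char2, add_zero]

theorem rho_ga_ga (A : Rep.{0} k G) (v : A.V) : A.ρ ga (A.ρ ga v) = v := by
  rw [← Module.End.mul_apply, ← map_mul, ga_mul_self, map_one]; rfl
theorem rho_gb_gb (A : Rep.{0} k G) (v : A.V) : A.ρ gb (A.ρ gb v) = v := by
  rw [← Module.End.mul_apply, ← map_mul, gb_mul_self, map_one]; rfl
theorem rho_ga_gb (A : Rep.{0} k G) (v : A.V) : A.ρ ga (A.ρ gb v) = A.ρ gb (A.ρ ga v) := by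
  rw [← Module.End.mul_apply, ← map_mul, ga_mul_gb, map_mul]; rfl

theorem opx_opx (A : Rep.{0} k G) (v : A.V) : opx A (opx A v) = 0 := by
  simp only [opx_apply, map_add, rho_ga_ga]
  have h1 := char2 v
  have h2 := char2 (A.ρ ga v)
  calc v + A.ρ ga v + (A.ρ ga v + v) = (v + v) + (A.ρ ga v + A.ρ ga v) := by abel
    _ = 0 := by rw [h1, h2, add_zero]
theorem opy_opy (A : Rep.{0} k G) (v : A.V) : opy A (opy A v) = 0 := by
  simp only [opy_apply, map_add, rho_gb_gb]
  have h1 := char2 v
  have h2 := char2 (A.ρ gb v)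
  calc v + A.ρ gb v + (A.ρ gb v + v) = (v + v) + (A.ρ gb v + A.ρ gb v) := by abel
    _ = 0 := by rw [h1, h2, add_zero]
theorem opx_opy (A : Rep.{0} k G) (v : A.V) : opx A (opy A v) = opy A (opx A v) := by
  simp only [opx_apply, opy_apply, map_add, rho_ga_gb]
  abel

theorem opx_opn (A : Rep.{0} k G) (v : A.V) : opx A (opn A v) = 0 := by
  rw [opn_apply, opx_opx]
theorem opy_opn (A : Rep.{0} k G) (v : A.V) : opy A (opn A v) = 0 := by
  rw [opn_apply, opx_opy, opy_opy]
theorem opn_opx (A : Rep.{0} k G) (v : A.V) : opn A (opx A v) = 0 := by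
  rw [opn_apply, ← opx_opy, opx_opx]
theorem opn_opy (A : Rep.{0} k G) (v : A.V) : opn A (opy A v) = 0 := by
  rw [opn_apply, opy_opy, map_zero]
theorem opn_opn (A : Rep.{0} k G) (v : A.V) : opn A (opn A v) = 0 := by
  rw [opn_apply, opy_opn, map_zero]

theorem hom_opx {A B : Rep.{0} k G} (f : A ⟶ B) (v : A.V) :
    f.hom (opx A v) = opx B (f.hom v) := by
  simp [opx_apply, Rep.hom_comm_apply]
theorem hom_opy {A B : Rep.{0} k G} (f : A ⟶ B) (v : A.V) :
    f.hom (opy A v) = opy B (f.hom v) := by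
  simp [opy_apply, Rep.hom_comm_apply]
theorem hom_opn {A B : Rep.{0} k G} (f : A ⟶ B) (v : A.V) :
    f.hom (opn A v) = opn B (f.hom v) := by
  rw [opn_apply, hom_opx, hom_opy, opn_apply]

/-- A linear map commuting with x and y is a homomorphism. -/
noncomputable def mkHom (A B : Rep.{0} k G) (f : A.V →ₗ[k] B.V)
    (hx : ∀ v, f (opx A v) = opx B (f v)) (hy : ∀ v, f (opy A v) = opy B (f v)) : A ⟶ B :=
  ConcreteCategory.ofHom (C := Rep.{0} k G) ⟨f, by
    have ha : ∀ v, f (A.ρ ga v) = B.ρ ga (f v) := by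
      intro v; rw [rho_ga, rho_ga, map_add, hx]
    have hb : ∀ v, f (A.ρ gb v) = B.ρ gb (f v) := by
      intro v; rw [rho_gb, rho_gb, map_add, hy]
    intro g
    ext v
    simp only [LinearMap.comp_apply]
    rcases G_cases g with rfl | rfl | rfl | rfl
    · simp
    · exact ha v
    · exact hb v
    · rw [map_mul, map_mul, Module.End.mul_apply, Module.End.mul_apply, ha, hb]⟩

theorem mkHom_apply (A B : Rep.{0} k G) (f : A.V →ₗ[k] B.V)
    (hx : ∀ v, f (opx A v) = opx B (f v)) (hy : ∀ v, f (opy A v) = opy B (f v)) (v : A.V) :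
    (mkHom A B f hx hy).hom v = f v := rfl

/-- A bijective homomorphism gives an isomorphism. -/
theorem iso_of_bij {A B : Rep.{0} k G} (f : A ⟶ B) (h : Function.Bijective f.hom) :
    Nonempty (A ≅ B) := by
  have : Mono f := (Rep.mono_iff_injective f).2 h.1
  have : Epi f := (Rep.epi_iff_surjective f).2 h.2
  have : IsIso f := isIso_of_mono_of_epi f
  exact ⟨asIso f⟩

/-- The representation attached to two commuting square-zero operators. -/
noncomputable def mkRho {V : Type} [AddCommGroup V] [Module k V] (X Y : V →ₗ[k] V)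
    (hX : ∀ v, X (X v) = 0) (hY : ∀ v, Y (Y v) = 0) (hXY : ∀ v, X (Y v) = Y (X v)) :
    Representation k G V where
  toFun g := (LinearMap.id + (Multiplicative.toAdd g.1 : ZMod 2) • X) ∘ₗ
    (LinearMap.id + (Multiplicative.toAdd g.2 : ZMod 2) • Y)
  map_one' := by
    ext v; simp
  map_mul' := by
    intro g h
    ext v
    simp only [Prod.fst_mul, toAdd_mul, Prod.snd_mul, LinearMap.comp_apply, LinearMap.add_apply,
      LinearMap.id_apply, LinearMap.smul_apply, map_add, map_smul, Module.End.mul_apply, hX, hY,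
      smul_zero, add_zero, ← hXY, add_smul, smul_add, map_zero]
    simp only [smul_smul]
    simp only [mul_comm]
    abel

section
variable {V : Type} [AddCommGroup V] [Module k V] (X Y : V →ₗ[k] V)
    (hX : ∀ v, X (X v) = 0) (hY : ∀ v, Y (Y v) = 0) (hXY : ∀ v, X (Y v) = Y (X v))

theorem mkRho_opx (v : V) : opx (Rep.of (mkRho X Y hX hY hXY)) v = X v := by
  have : (Rep.of (mkRho X Y hX hY hXY)).ρ ga v = v + X v := by
    simp [mkRho, ga]
  rw [opx_apply, this]
  have h2 := char2 v
  calc v + X v + v = (v + v) + X v := by abel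
    _ = X v := by rw [h2, zero_add]

theorem mkRho_opy (v : V) : opy (Rep.of (mkRho X Y hX hY hXY)) v = Y v := by
  have : (Rep.of (mkRho X Y hX hY hXY)).ρ gb v = v + Y v := by
    simp [mkRho, gb]
  rw [opy_apply, this]
  have h2 := char2 v
  calc v + Y v + v = (v + v) + Y v := by abel
    _ = Y v := by rw [h2, zero_add]
end

end Q2.V4
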