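import Pool.Agent.Q2.V4Base

set_option autoImplicit false
open CategoryTheory CategoryTheory.MonoidalCategory CategoryTheory.Limits

namespace Q2.V4

/-- product representation -/
noncomputable abbrev prd (A B : Rep.{0} k G) : Rep.{0} k G := Rep.of (A.ρ.prod B.ρ)

theorem prd_opx (A B : Rep.{0} k G) (v : A.V × B.V) :
    opx (prd A B) v = (opx A v.1, opx B v.2) := rfl
theorem prd_opy (A B : Rep.{0} k G) (v : A.V × B.V) :
    opy (prd A B) v = (opy A v.1, opy B v.2) := rfl
theorem prd_opn (A B : Rep.{0} k G) (v : A.V × B.V) :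
    opn (prd A B) v = (opn A v.1, opn B v.2) := rfl

theorem prd_iso (A B : Rep.{0} k G) : Nonempty (A ⊞ B ≅ prd A B) := by
  let f1 : prd A B ⟶ A := Rep.ofHom (.fst k A.ρ B.ρ)
  let f2 : prd A B ⟶ B := Rep.ofHom (.snd k A.ρ B.ρ)
  let g1 : A ⟶ prd A B := Rep.ofHom (.inl k A.ρ B.ρ)
  let g2 : B ⟶ prd A B := Rep.ofHom (.inr k A.ρ B.ρ)
  have h11 : g1 ≫ f1 = 𝟙 A := Rep.hom_ext (Representation.IntertwiningMap.fst_comp_inl ..)
  have h12 : g1 ≫ f2 = 0 := Rep.hom_ext (Representation.IntertwiningMap.snd_comp_inl ..)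
  have h21 : g2 ≫ f1 = 0 := Rep.hom_ext (Representation.IntertwiningMap.fst_comp_inr ..)
  have h22 : g2 ≫ f2 = 𝟙 B := Rep.hom_ext (Representation.IntertwiningMap.snd_comp_inr ..)
  have hs : f1 ≫ g1 + f2 ≫ g2 = 𝟙 (prd A B) :=
    Rep.hom_ext (Representation.IntertwiningMap.coprod_inl_inr ..)
  refine ⟨⟨biprod.desc g1 g2, biprod.lift f1 f2, ?_, ?_⟩⟩
  · apply biprod.hom_ext' <;> apply biprod.hom_ext <;> simp [h11, h12, h21, h22]
  · rw [biprod.lift_desc, hs]

/-- rank of the norm -/
noncomputable def nu (A : Rep.{0} k G) : ℕ := Module.finrank k (LinearMap.range (opn A))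

/-- core dimension -/
noncomputable def dl (A : Rep.{0} k G) : ℤ := (Module.finrank k A.V : ℤ) - 4 * nu A

/-- underlying linear equivalence -/
noncomputable def isoLin {A B : Rep.{0} k G} (e : A ≅ B) : A.V ≃ₗ[k] B.V :=
  (Representation.equivOfIso e).toLinearEquiv

theorem isoLin_apply {A B : Rep.{0} k G} (e : A ≅ B) (v : A.V) :
    isoLin e v = e.hom.hom v := rfl

theorem finrank_iso {A B : Rep.{0} k G} (e : A ≅ B) :
    Module.finrank k A.V = Module.finrank k B.V := (isoLin e).finrank_eq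

theorem fd_iso {A B : Rep.{0} k G} (e : A ≅ B) (h : FiniteDimensional k A.V) :
    FiniteDimensional k B.V := Module.Finite.equiv (isoLin e)

theorem nu_iso {A B : Rep.{0} k G} (e : A ≅ B) : nu A = nu B := by
  unfold nu
  have : LinearMap.range (opn B) = (LinearMap.range (opn A)).map (isoLin e : A.V →ₗ[k] B.V) := by
    ext w
    constructor
    · rintro ⟨v, rfl⟩
      refine ⟨opn A ((isoLin e).symm v), ⟨_, rfl⟩, ?_⟩
      have h := hom_opn e.hom ((isoLin e).symm v)
      rw [← isoLin_apply, ← isoLin_apply, LinearEquiv.apply_symm_apply] at h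
      exact h
    · rintro ⟨_, ⟨v, rfl⟩, rfl⟩
      exact ⟨isoLin e v, (hom_opn e.hom v).symm⟩
  rw [this]
  exact ((isoLin e).submoduleMap _).finrank_eq

theorem dl_iso {A B : Rep.{0} k G} (e : A ≅ B) : dl A = dl B := by
  unfold dl; rw [nu_iso e, finrank_iso e]

/-- submodules of a product -/
def subProd {V W : Type*} [AddCommGroup V] [Module k V] [AddCommGroup W] [Module k W]
    (p : Submodule k V) (q : Submodule k W) : (p.prod q) ≃ₗ[k] p × q where
  toFun x := (⟨x.1.1, x.2.1⟩, ⟨x.1.2, x.2.2⟩)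
  invFun y := ⟨(y.1.1, y.2.1), y.1.2, y.2.2⟩
  map_add' _ _ := rfl
  map_smul' _ _ := rfl
  left_inv _ := rfl
  right_inv _ := rfl

theorem nu_prd (A B : Rep.{0} k G) [FiniteDimensional k A.V] [FiniteDimensional k B.V] :
    nu (prd A B) = nu A + nu B := by
  unfold nu
  have : LinearMap.range (opn (prd A B)) =
      (LinearMap.range (opn A)).prod (LinearMap.range (opn B)) := by
    ext ⟨a, b⟩
    constructor
    · rintro ⟨⟨u, v⟩, h⟩
      rw [prd_opn] at h
      exact ⟨⟨u, congrArg Prod.fst h⟩, ⟨v, congrArg Prod.snd h⟩⟩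
    · rintro ⟨⟨u, hu⟩, ⟨v, hv⟩⟩
      exact ⟨(u, v), Prod.ext hu hv⟩
  rw [this, ← Module.finrank_prod]
  exact (subProd _ _).finrank_eq

theorem dl_prd (A B : Rep.{0} k G) [FiniteDimensional k A.V] [FiniteDimensional k B.V] :
    dl (prd A B) = dl A + dl B := by
  unfold dl
  rw [nu_prd]
  have : Module.finrank k (prd A B).V = Module.finrank k A.V + Module.finrank k B.V :=
    Module.finrank_prod
  rw [this]
  push_cast
  ring

theorem dl_biprod (A B : Rep.{0} k G) [FiniteDimensional k A.V] [FiniteDimensional k B.V] :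
    dl (A ⊞ B) = dl A + dl B := by
  obtain ⟨e⟩ := prd_iso A B
  rw [dl_iso e, dl_prd]

instance prd_fd (A B : Rep.{0} k G) [FiniteDimensional k A.V] [FiniteDimensional k B.V] :
    FiniteDimensional k (prd A B).V :=
  inferInstanceAs (FiniteDimensional k (A.V × B.V))

instance biprod_fd (A B : Rep.{0} k G) [FiniteDimensional k A.V] [FiniteDimensional k B.V] :
    FiniteDimensional k (A ⊞ B : Rep.{0} k G).V := by
  obtain ⟨e⟩ := prd_iso A B
  exact fd_iso e.symm inferInstance

theorem fd_left {A B : Rep.{0} k G} (h : FiniteDimensional k (A ⊞ B : Rep.{0} k G).V) :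
    FiniteDimensional k A.V := by
  obtain ⟨e⟩ := prd_iso A B
  have h2 : FiniteDimensional k (A.V × B.V) := fd_iso e h
  exact Module.Finite.of_surjective (LinearMap.fst k A.V B.V) LinearMap.fst_surjective

theorem fd_right {A B : Rep.{0} k G} (h : FiniteDimensional k (A ⊞ B : Rep.{0} k G).V) :
    FiniteDimensional k B.V := by
  obtain ⟨e⟩ := prd_iso A B
  have h2 : FiniteDimensional k (A.V × B.V) := fd_iso e h
  exact Module.Finite.of_surjective (LinearMap.snd k A.V B.V) LinearMap.snd_surjective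

/-! ### splitting -/

/-- the kernel subrepresentation -/
noncomputable def kerRep {X Y : Rep.{0} k G} (r : X ⟶ Y) : Rep.{0} k G :=
  Rep.subrepresentation X (LinearMap.ker r.hom.toLinearMap) (by
    intro g v hv
    rw [Submodule.mem_comap, LinearMap.mem_ker]
    rw [LinearMap.mem_ker] at hv
    change r.hom (X.ρ g v) = 0
    rw [Rep.hom_comm_apply]
    change Y.ρ g (r.hom.toLinearMap v) = 0
    rw [hv, map_zero])

theorem kerRep_fd {X Y : Rep.{0} k G} (r : X ⟶ Y) (h : FiniteDimensional k X.V) :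
    FiniteDimensional k (kerRep r).V :=
  inferInstanceAs (FiniteDimensional k (LinearMap.ker r.hom.toLinearMap))

theorem split_iso {X Y : Rep.{0} k G} (i : Y ⟶ X) (r : X ⟶ Y) (h : ∀ y, r.hom (i.hom y) = y) :
    Nonempty (X ≅ kerRep r ⊞ Y) := by
  obtain ⟨e⟩ := prd_iso (kerRep r) Y
  have hx : ∀ v : (kerRep r).V, (opx (kerRep r) v : LinearMap.ker r.hom.toLinearMap).1
      = opx X (v : LinearMap.ker r.hom.toLinearMap).1 := fun v => rfl
  have hy : ∀ v : (kerRep r).V, (opy (kerRep r) v : LinearMap.ker r.hom.toLinearMap).1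
      = opy X (v : LinearMap.ker r.hom.toLinearMap).1 := fun v => rfl
  let f : (prd (kerRep r) Y).V →ₗ[k] X.V :=
    LinearMap.coprod (LinearMap.ker r.hom.toLinearMap).subtype i.hom.toLinearMap
  have hf : ∀ v, f v = (v.1 : LinearMap.ker r.hom.toLinearMap).1 + i.hom v.2 := by
    intro v; rfl
  let F : prd (kerRep r) Y ⟶ X := mkHom _ _ f
    (by
      intro v
      rw [hf, hf, map_add, ← hom_opx]
      rfl)
    (by
      intro v
      rw [hf, hf, map_add, ← hom_opy]
      rfl)
  have hb : Function.Bijective F.hom := by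
    constructor
    · rw [injective_iff_map_eq_zero]
      rintro ⟨⟨v1, hv1⟩, v2⟩ hv
      have hv' : v1 + i.hom v2 = 0 := hv
      have hv1' : r.hom v1 = 0 := hv1
      have h1 : r.hom (v1 + i.hom v2) = 0 := by
        rw [hv', map_zero]
      rw [map_add, hv1', zero_add, h] at h1
      rw [h1, map_zero, add_zero] at hv'
      exact Prod.ext (Subtype.ext hv') h1
    · intro x
      have hx0 : x - i.hom (r.hom x) ∈ LinearMap.ker r.hom.toLinearMap := by
        rw [LinearMap.mem_ker]
        change r.hom (x - i.hom (r.hom x)) = 0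
        rw [map_sub, h, sub_self]
      refine ⟨((⟨x - i.hom (r.hom x), hx0⟩ : LinearMap.ker r.hom.toLinearMap), r.hom x), ?_⟩
      change x - i.hom (r.hom x) + i.hom (r.hom x) = x
      rw [sub_add_cancel]
  obtain ⟨e2⟩ := iso_of_bij F hb
  exact ⟨e2.symm ≪≫ e.symm⟩

end Q2.V4
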