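import Pool.Agent.Q2.V4Delta

set_option autoImplicit false
open CategoryTheory CategoryTheory.MonoidalCategory CategoryTheory.Limits

namespace Q2.V4

section
variable (V : Type) [AddCommGroup V] [Module k V]

/-- x on the free module -/
def frX : (V × V × V × V) →ₗ[k] (V × V × V × V) where
  toFun v := (0, v.1, 0, v.2.2.1)
  map_add' u v := by simp
  map_smul' c v := by simp

/-- y on the free module -/
def frY : (V × V × V × V) →ₗ[k] (V × V × V × V) where
  toFun v := (0, 0, v.1, v.2.1)
  map_add' u v := by simp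
  map_smul' c v := by simp

/-- free module kG ⊗ V -/
noncomputable abbrev fr : Rep.{0} k G :=
  Rep.of (mkRho (frX V) (frY V) (fun _ => rfl) (fun _ => rfl) (fun _ => rfl))

theorem fr_opx (v : V × V × V × V) : opx (fr V) v = (0, v.1, 0, v.2.2.1) :=
  mkRho_opx _ _ _ _ _ _
theorem fr_opy (v : V × V × V × V) : opy (fr V) v = (0, 0, v.1, v.2.1) :=
  mkRho_opy _ _ _ _ _ _
theorem fr_opn (v : V × V × V × V) : opn (fr V) v = (0, 0, 0, v.1) := by
  rw [opn_apply, fr_opy, fr_opx]

instance fr_fd [FiniteDimensional k V] : FiniteDimensional k (fr V).V :=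
  inferInstanceAs (FiniteDimensional k (V × V × V × V))

variable {V}

/-- the homomorphism out of a free module -/
noncomputable def frHom {A : Rep.{0} k G} (s : V →ₗ[k] A.V) : fr V ⟶ A :=
  mkHom (fr V) A
    ({ toFun := fun v : V × V × V × V => s v.1 + opx A (s v.2.1) + opy A (s v.2.2.1) +
        opn A (s v.2.2.2)
       map_add' := by intro u v; simp only [Prod.fst_add, Prod.snd_add, map_add]; abel
       map_smul' := by
        intro c v; simp only [Prod.smul_fst, Prod.smul_snd, map_smul, smul_add, RingHom.id_apply] } :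
      (V × V × V × V) →ₗ[k] A.V)
    (by
      intro v
      rw [fr_opx]
      simp only [LinearMap.coe_mk, AddHom.coe_mk, map_zero, map_add, opx_opx, opx_opn, zero_add,
        add_zero]
      rw [opn_apply])
    (by
      intro v
      rw [fr_opy]
      simp only [LinearMap.coe_mk, AddHom.coe_mk, map_zero, map_add, opy_opy, opy_opn, zero_add,
        add_zero]
      rw [opn_apply, opx_opy])

theorem frHom_apply {A : Rep.{0} k G} (s : V →ₗ[k] A.V) (v : V × V × V × V) :
    (frHom s).hom v = s v.1 + opx A (s v.2.1) + opy A (s v.2.2.1) + opn A (s v.2.2.2) := rfl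

/-- the generators -/
def frGen : V →ₗ[k] (fr V).V := LinearMap.inl k V (V × V × V)

theorem frHom_ext {A : Rep.{0} k G} (f g : fr V ⟶ A)
    (h : ∀ v : V, f.hom (frGen v) = g.hom (frGen v)) : f = g := by
  have key : ∀ (f : fr V ⟶ A) (v : V × V × V × V), f.hom v = f.hom (frGen v.1) +
      opx A (f.hom (frGen v.2.1)) + opy A (f.hom (frGen v.2.2.1)) +
      opn A (f.hom (frGen v.2.2.2)) := by
    intro f v
    rw [← hom_opx, ← hom_opy, ← hom_opn, ← map_add, ← map_add, ← map_add]
    congr 1
    have h1 : opx (fr V) (frGen v.2.1) = (0, v.2.1, 0, 0) := fr_opx V _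
    have h2 : opy (fr V) (frGen v.2.2.1) = (0, 0, v.2.2.1, 0) := fr_opy V _
    have h3 : opn (fr V) (frGen v.2.2.2) = (0, 0, 0, v.2.2.2) := fr_opn V _
    rw [h1, h2, h3]
    change v = (v.1, 0, 0, 0) + (0, v.2.1, 0, 0) + (0, 0, v.2.2.1, 0) + (0, 0, 0, v.2.2.2)
    simp
  apply Rep.hom_ext
  apply Representation.IntertwiningMap.ext
  apply LinearMap.ext
  intro v
  change f.hom v = g.hom v
  rw [key f, key g, h, h, h, h]

theorem frHom_gen {A : Rep.{0} k G} (s : V →ₗ[k] A.V) (v : V) :
    (frHom s).hom (frGen v) = s v := by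
  change s v + opx A (s 0) + opy A (s 0) + opn A (s 0) = s v
  simp

instance fr_projective : Projective (fr V) where
  factors := by
    intro E X f e he
    have hs : Function.Surjective e.hom.toLinearMap := (Rep.epi_iff_surjective e).1 he
    obtain ⟨t, ht⟩ := LinearMap.exists_rightInverse_of_surjective e.hom.toLinearMap
      (LinearMap.range_eq_top.2 hs)
    refine ⟨frHom (t ∘ₗ f.hom.toLinearMap ∘ₗ frGen), ?_⟩
    apply frHom_ext
    intro v
    change e.hom ((frHom (t ∘ₗ f.hom.toLinearMap ∘ₗ frGen)).hom (frGen v)) = _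
    rw [frHom_gen]
    exact LinearMap.congr_fun ht (f.hom.toLinearMap (frGen v))

variable (V)

theorem nu_fr : nu (fr V) = Module.finrank k V := by
  unfold nu
  let e : V →ₗ[k] (fr V).V := LinearMap.inr k V (V × V × V) ∘ₗ LinearMap.inr k V (V × V) ∘ₗ
    LinearMap.inr k V V
  have he : ∀ v, e v = (0, 0, 0, v) := fun _ => rfl
  have hinj : Function.Injective e := by
    intro u v h
    rw [he, he] at h
    simpa using h
  have : LinearMap.range (opn (fr V)) = LinearMap.range e := by
    ext w
    constructor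
    · rintro ⟨v, rfl⟩
      exact ⟨(v : V × V × V × V).1, (fr_opn V v).symm⟩
    · rintro ⟨v, rfl⟩
      exact ⟨frGen v, fr_opn V _⟩
  rw [this, LinearMap.finrank_range_of_inj hinj]

theorem finrank_fr [FiniteDimensional k V] : Module.finrank k (fr V).V = 4 * Module.finrank k V := by
  have : Module.finrank k (fr V).V = Module.finrank k (V × V × V × V) := rfl
  rw [this, Module.finrank_prod, Module.finrank_prod, Module.finrank_prod]
  ring

theorem dl_fr [FiniteDimensional k V] : dl (fr V) = 0 := by
  unfold dl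
  rw [nu_fr, finrank_fr]
  push_cast
  ring

end

/-- The core decomposition. -/
theorem core_exists (X : Rep.{0} k G) (hX : FiniteDimensional k X.V) :
    ∃ N P : Rep.{0} k G, Projective P ∧ FiniteDimensional k N.V ∧ FiniteDimensional k P.V ∧
      dl P = 0 ∧ Nonempty (X ≅ N ⊞ P) ∧ (Module.finrank k N.V : ℤ) = dl X := by
  let U : Submodule k X.V := LinearMap.range (opn X)
  obtain ⟨s, hs⟩ := LinearMap.exists_rightInverse_of_surjective (opn X).rangeRestrict
    (LinearMap.range_rangeRestrict _)
  obtain ⟨f, hf⟩ := LinearMap.exists_leftInverse_of_injective U.subtype (Submodule.ker_subtype U)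
  have hs' : ∀ u : U, opn X (s u) = u.1 := by
    intro u
    have := LinearMap.congr_fun hs u
    exact congrArg Subtype.val this
  have hf' : ∀ u : U, f u.1 = u := fun u => LinearMap.congr_fun hf u
  have hfs : ∀ u : U, f (opn X (s u)) = u := by
    intro u; rw [hs', hf']
  -- corrected section
  let q : U →ₗ[k] U := f ∘ₗ opx X ∘ₗ s
  let p : U →ₗ[k] U := f ∘ₗ opy X ∘ₗ s
  let t : U →ₗ[k] U := f ∘ₗ s + p ∘ₗ q + q ∘ₗ p
  let s' : U →ₗ[k] X.V := s + opx X ∘ₗ s ∘ₗ p + opy X ∘ₗ s ∘ₗ q + opn X ∘ₗ s ∘ₗ t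
  have hs'' : ∀ u, s' u = s u + opx X (s (p u)) + opy X (s (q u)) + opn X (s (t u)) :=
    fun _ => rfl
  have hq : ∀ u, f (opx X (s u)) = q u := fun _ => rfl
  have hp : ∀ u, f (opy X (s u)) = p u := fun _ => rfl
  have c2 : ∀ u : U, u + u = 0 := char2
  have h0 : ∀ u, f (opn X (s' u)) = u := by
    intro u
    rw [hs'']
    simp only [map_add, opn_opx, opn_opy, opn_opn, add_zero, hfs]
  have h1 : ∀ u, f (opx X (s' u)) = 0 := by
    intro u
    rw [hs'']
    simp only [map_add, opx_opx, opx_opn, add_zero]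
    rw [← opn_apply, hfs, hq, c2]
  have h2 : ∀ u, f (opy X (s' u)) = 0 := by
    intro u
    rw [hs'']
    simp only [map_add, opy_opy, opy_opn, add_zero]
    rw [← opx_opy, ← opn_apply, hfs, hp, c2]
  have h3 : ∀ u, f (s' u) = 0 := by
    intro u
    rw [hs'']
    simp only [map_add, hfs, hq, hp]
    have : t u = f (s u) + p (q u) + q (p u) := rfl
    rw [this]
    have e1 := c2 (f (s u))
    have e2 := c2 (q (p u))
    have e3 := c2 (p (q u))
    calc f (s u) + q (p u) + p (q u) + (f (s u) + p (q u) + q (p u))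
        = (f (s u) + f (s u)) + (q (p u) + q (p u)) + (p (q u) + p (q u)) := by abel
      _ = 0 := by rw [e1, e2, e3, add_zero, add_zero]
  let rl : X.V →ₗ[k] (fr U).V :=
    LinearMap.prod (f ∘ₗ opn X) (LinearMap.prod (f ∘ₗ opy X) (LinearMap.prod (f ∘ₗ opx X) f))
  let r : X ⟶ fr U := mkHom X (fr U) rl
    (by
      intro v
      change (f (opn X (opx X v)), f (opy X (opx X v)), f (opx X (opx X v)), f (opx X v)) = _
      erw [fr_opx]
      change _ = ((0 : U), f (opn X v), (0 : U), f (opx X v))
      rw [opn_opx, opx_opx, map_zero, ← opx_opy, ← opn_apply])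
    (by
      intro v
      change (f (opn X (opy X v)), f (opy X (opy X v)), f (opx X (opy X v)), f (opy X v)) = _
      erw [fr_opy]
      change _ = ((0 : U), (0 : U), f (opn X v), f (opy X v))
      rw [opn_opy, opy_opy, map_zero, ← opn_apply])
  have hr : ∀ v, r.hom v = (f (opn X v), f (opy X v), f (opx X v), f v) := fun _ => rfl
  have hri : frHom s' ≫ r = 𝟙 (fr U) := by
    apply frHom_ext
    intro u
    change r.hom ((frHom s').hom (frGen u)) = frGen u
    rw [frHom_gen, hr, h0, h1, h2, h3]
    rfl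
  have hri' : ∀ y, r.hom ((frHom s').hom y) = y := by
    intro y
    have : (frHom s' ≫ r).hom y = (𝟙 (fr U) : fr U ⟶ fr U).hom y := by rw [hri]
    exact this
  have hiso := split_iso (frHom s') r hri'
  have hfdN := kerRep_fd r hX
  refine ⟨kerRep r, fr U, inferInstance, hfdN, inferInstance, dl_fr _, hiso, ?_⟩
  obtain ⟨e⟩ := hiso
  obtain ⟨e2⟩ := prd_iso (kerRep r) (fr U)
  have h4 : Module.finrank k X.V = Module.finrank k (kerRep r).V + 4 * nu X := by
    rw [finrank_iso e, finrank_iso e2]
    have : Module.finrank k (prd (kerRep r) (fr U)).V =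
      Module.finrank k (kerRep r).V + Module.finrank k (fr U).V := Module.finrank_prod
    rw [this, finrank_fr]
    rfl
  unfold dl
  rw [h4]
  push_cast
  ring

theorem dl_nonneg (X : Rep.{0} k G) (hX : FiniteDimensional k X.V) : 0 ≤ dl X := by
  obtain ⟨N, P, _, _, _, _, _, h⟩ := core_exists X hX
  rw [← h]; positivity

theorem dl_projective (P : Rep.{0} k G) (hP : Projective P) (hfd : FiniteDimensional k P.V) :
    dl P = 0 := by
  let π : fr P.V ⟶ P := frHom LinearMap.id
  have hsurj : Function.Surjective π.hom := fun v => ⟨frGen v, frHom_gen _ v⟩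
  have : Epi π := (Rep.epi_iff_surjective π).2 hsurj
  let σ : P ⟶ fr P.V := Projective.factorThru (𝟙 P) π
  have hσ : σ ≫ π = 𝟙 P := Projective.factorThru_comp _ _
  have hσ' : ∀ y, π.hom (σ.hom y) = y := by
    intro y
    have : (σ ≫ π).hom y = (𝟙 P : P ⟶ P).hom y := by rw [hσ]
    exact this
  obtain ⟨e⟩ := split_iso σ π hσ'
  have hK := kerRep_fd π inferInstance
  have h1 := dl_iso e
  rw [dl_biprod, dl_fr] at h1
  have h2 := dl_nonneg _ hK
  have h3 := dl_nonneg P hfd
  omega

end Q2.V4
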