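import Mathlib

set_option autoImplicit false

namespace Q2.V4S

/-- the core dimensions -/
def aa : ℕ → ℤ → ℤ
  | 0, s => 2 * |s| + 1
  | n+1, s => aa n (s+1) + aa n (s-1)

/-- random walk counts -/
def pp : ℕ → ℤ → ℤ
  | 0, s => if s = 0 then 1 else 0
  | n+1, s => pp n (s+1) + pp n (s-1)

theorem aa_succ (n : ℕ) (s : ℤ) : aa (n+1) s = 2 * aa n s + 4 * pp n s := by
  induction n generalizing s with
  | zero =>
    simp only [aa, pp]
    rcases lt_trichotomy s 0 with h | h | h
    · rw [abs_of_nonpos (by omega : s + 1 ≤ 0), abs_of_neg (by omega : s - 1 < 0), abs_of_neg h,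
        if_neg (by omega)]
      ring
    · subst h; norm_num
    · rw [abs_of_pos (by omega : 0 < s + 1), abs_of_nonneg (by omega : 0 ≤ s - 1), abs_of_pos h,
        if_neg (by omega)]
      ring
  | succ n ih =>
    have e1 : aa (n+1+1) s = aa (n+1) (s+1) + aa (n+1) (s-1) := rfl
    have e2 : pp (n+1) s = pp n (s+1) + pp n (s-1) := rfl
    have e3 : aa (n+1) s = aa n (s+1) + aa n (s-1) := rfl
    rw [e1, ih, ih, e2, e3]
    ring

theorem pp_zero (n : ℕ) (s : ℤ) (h : s < -n) : pp n s = 0 := by
  induction n generalizing s with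
  | zero =>
    have : s ≠ 0 := by push_cast at h; omega
    simp [pp, this]
  | succ n ih =>
    push_cast at h
    have e2 : pp (n+1) s = pp n (s+1) + pp n (s-1) := rfl
    rw [e2, ih _ (by omega), ih _ (by omega)]; rfl

theorem pp_choose (n j : ℕ) : pp n (2 * j - n) = n.choose j := by
  induction n generalizing j with
  | zero =>
    cases j with
    | zero => simp [pp]
    | succ j =>
      have : (2 * ((j+1 : ℕ) : ℤ) - (0 : ℕ)) ≠ 0 := by push_cast; omega
      simp only [pp, if_neg this]
      simp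
  | succ n ih =>
    have e2 : ∀ s, pp (n+1) s = pp n (s+1) + pp n (s-1) := fun _ => rfl
    rw [e2]
    cases j with
    | zero =>
      have h1 : pp n (2 * ((0 : ℕ) : ℤ) - ((n+1 : ℕ) : ℤ) + 1) = pp n (2 * ((0 : ℕ) : ℤ) - n) := by
        congr 1; push_cast; ring
      rw [h1, ih, pp_zero n _ (by push_cast; omega)]
      simp
    | succ j =>
      have h1 : pp n (2 * ((j+1 : ℕ) : ℤ) - ((n+1 : ℕ) : ℤ) + 1) =
          pp n (2 * ((j+1 : ℕ) : ℤ) - n) := by
        congr 1; push_cast; ring
      have h2 : pp n (2 * ((j+1 : ℕ) : ℤ) - ((n+1 : ℕ) : ℤ) - 1) =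
          pp n (2 * ((j : ℕ) : ℤ) - n) := by
        congr 1; push_cast; ring
      rw [h1, h2, ih, ih, Nat.choose_succ_succ]
      push_cast; ring

theorem pp_odd (n : ℕ) (s : ℤ) (h : (n + s) % 2 = 1) : pp n s = 0 := by
  induction n generalizing s with
  | zero =>
    have : s ≠ 0 := by push_cast at h; omega
    simp [pp, this]
  | succ n ih =>
    push_cast at h
    have e2 : pp (n+1) s = pp n (s+1) + pp n (s-1) := rfl
    rw [e2, ih _ (by omega), ih _ (by omega)]; rfl

theorem pp_central (m : ℕ) : pp (2 * m) 0 = Nat.centralBinom m := by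
  have := pp_choose (2 * m) m
  rw [Nat.centralBinom, ← this]
  congr 1; push_cast; ring

theorem pp_rec (n : ℕ) : (n + 2 : ℤ) * pp (n + 2) 0 = 4 * (n + 1) * pp n 0 := by
  rcases Nat.even_or_odd' n with ⟨m, rfl | rfl⟩
  · have h1 : 2 * m + 2 = 2 * (m + 1) := by ring
    rw [h1, pp_central, pp_central]
    have := Nat.succ_mul_centralBinom_succ m
    have h2 : ((m + 1 : ℕ) : ℤ) * (Nat.centralBinom (m+1) : ℤ) =
      2 * (2 * m + 1) * (Nat.centralBinom m : ℤ) := by exact_mod_cast this
    push_cast at h2 ⊢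
    linear_combination 2 * h2
  · rw [pp_odd (2 * m + 1 + 2) 0 (by push_cast; omega), pp_odd (2 * m + 1) 0 (by push_cast; omega)]
    ring

open PowerSeries in
theorem not_rational (P Q : Polynomial ℚ) (hQ : Q ≠ 0)
    (h : (Q : PowerSeries ℚ) * PowerSeries.mk (fun n => ((aa n 0 : ℤ) : ℚ)) = (P : PowerSeries ℚ)) :
    False := by
  set A : PowerSeries ℚ := PowerSeries.mk (fun n => ((aa n 0 : ℤ) : ℚ)) with hA
  set B : PowerSeries ℚ := PowerSeries.mk (fun n => ((pp n 0 : ℤ) : ℚ)) with hB
  have hC2 : (PowerSeries.C (R := ℚ) 2) = 2 := map_ofNat _ 2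
  have hC4 : (PowerSeries.C (R := ℚ) 4) = 4 := map_ofNat _ 4
  have hP4 : ((4 : Polynomial ℚ) : PowerSeries ℚ) = 4 :=
    map_ofNat (Polynomial.coeToPowerSeries.ringHom (R := ℚ)) 4
  have hP2 : ((2 : Polynomial ℚ) : PowerSeries ℚ) = 2 :=
    map_ofNat (Polynomial.coeToPowerSeries.ringHom (R := ℚ)) 2
  have hAB : A * (1 - 2 * X) = 1 + 4 * X * B := by
    have e1 : A = 1 + X * (2 * A + 4 * B) := by
      ext n
      cases n with
      | zero => simp [hA, aa]
      | succ n =>
        rw [map_add, PowerSeries.coeff_succ_X_mul, PowerSeries.coeff_one, if_neg (by omega),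
          zero_add]
        have e2 : (2 : PowerSeries ℚ) * A + 4 * B = (2 : ℚ) • A + (4 : ℚ) • B := by
          rw [Algebra.smul_def, Algebra.smul_def]; simp [hC2, hC4]
        rw [e2, map_add, PowerSeries.coeff_smul, PowerSeries.coeff_smul, hA, hB, coeff_mk, coeff_mk,
          coeff_mk, aa_succ]
        push_cast
        simp
    linear_combination e1
  have hODE : (d⁄dX ℚ) B * (1 - 4 * X ^ 2) = 4 * X * B := by
    have e1 : (d⁄dX ℚ) B = 4 * X * B + 4 * X * (X * (d⁄dX ℚ) B) := by
      have e2 : 4 * X * B + 4 * X * (X * (d⁄dX ℚ) B) =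
          X * ((4 : ℚ) • (B + X * (d⁄dX ℚ) B)) := by
        rw [Algebra.smul_def]
        simp only [PowerSeries.algebraMap_apply, Algebra.algebraMap_self, RingHom.id_apply, hC4]
        ring
      rw [e2]
      ext n
      rw [PowerSeries.coeff_derivative]
      cases n with
      | zero =>
        rw [PowerSeries.coeff_zero_X_mul, hB, coeff_mk, pp_odd _ _ (by norm_num)]
        simp
      | succ n =>
        rw [PowerSeries.coeff_succ_X_mul, PowerSeries.coeff_smul, map_add]
        have e3 : coeff n (X * (d⁄dX ℚ) B) = n * coeff n B := by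
          cases n with
          | zero => simp
          | succ n =>
            rw [PowerSeries.coeff_succ_X_mul, PowerSeries.coeff_derivative]
            push_cast; ring
        rw [e3, hB, coeff_mk, coeff_mk]
        have h4 := pp_rec n
        have h5 : ((n : ℚ) + 2) * (pp (n+2) 0 : ℚ) = 4 * (n + 1) * (pp n 0 : ℚ) := by
          exact_mod_cast h4
        have h6 : n + 1 + 1 = n + 2 := rfl
        rw [h6]
        simp only [smul_eq_mul]
        push_cast
        linear_combination h5
    linear_combination e1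
  have hH : B ^ 2 * (1 - 4 * X ^ 2) = 1 := by
    apply PowerSeries.derivative.ext
    · have : (d⁄dX ℚ) (B ^ 2 * (1 - 4 * X ^ 2)) =
          2 * B * ((d⁄dX ℚ) B * (1 - 4 * X ^ 2)) - 8 * X * B ^ 2 := by
        rw [Derivation.leibniz]
        have h1 : (d⁄dX ℚ) (1 - 4 * X ^ 2 : PowerSeries ℚ) = - 8 * X := by
          rw [map_sub, Derivation.leibniz, Derivation.leibniz_pow]
          have : (d⁄dX ℚ) (4 : PowerSeries ℚ) = 0 := by
            have : (4 : PowerSeries ℚ) = ((4 : ℕ) : PowerSeries ℚ) := by norm_num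
            rw [this, Derivation.map_natCast]
          rw [this]
          simp [PowerSeries.derivative_X]
          ring
        rw [h1, Derivation.leibniz_pow]
        simp only [smul_eq_mul, nsmul_eq_mul]
        push_cast
        ring
      rw [this, hODE]
      simp
      ring
    · simp [hB, pp]
  -- contradiction
  let U : Polynomial ℚ := P * (1 - 2 * Polynomial.X) - Q
  let V : Polynomial ℚ := 4 * Polynomial.X * Q
  have hUV : (V : PowerSeries ℚ) * B = (U : PowerSeries ℚ) := by
    have e1 : (V : PowerSeries ℚ) = 4 * X * (Q : PowerSeries ℚ) := by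
      simp only [V, Polynomial.coe_mul, Polynomial.coe_X, hP4]
    have e2 : (U : PowerSeries ℚ) = (P : PowerSeries ℚ) * (1 - 2 * X) - (Q : PowerSeries ℚ) := by
      simp only [U, Polynomial.coe_mul, Polynomial.coe_X, hP2, Polynomial.coe_sub,
        Polynomial.coe_one]
    rw [e1, e2, ← h]
    linear_combination (-(Q : PowerSeries ℚ)) * hAB
  have hV : V ≠ 0 := by
    simp [V, hQ]
  have key : (1 - 4 * Polynomial.X ^ 2) * U ^ 2 = V ^ 2 := by
    apply Polynomial.coe_injective
    have e3 : (((1 - 4 * Polynomial.X ^ 2) * U ^ 2 : Polynomial ℚ) : PowerSeries ℚ) =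
        (1 - 4 * X ^ 2) * (U : PowerSeries ℚ) ^ 2 := by
      simp only [Polynomial.coe_mul, Polynomial.coe_X, hP4, Polynomial.coe_sub,
        Polynomial.coe_one, Polynomial.coe_pow]
    rw [e3, ← hUV, Polynomial.coe_pow]
    linear_combination ((V : PowerSeries ℚ) ^ 2) * hH
  have hlc := congrArg Polynomial.leadingCoeff key
  rw [Polynomial.leadingCoeff_mul, Polynomial.leadingCoeff_pow, Polynomial.leadingCoeff_pow] at hlc
  have h4 : (1 - 4 * Polynomial.X ^ 2 : Polynomial ℚ).leadingCoeff = -4 := by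
    have : (1 - 4 * Polynomial.X ^ 2 : Polynomial ℚ) =
        Polynomial.C (-4) * Polynomial.X ^ 2 + Polynomial.C 0 * Polynomial.X + Polynomial.C 1 := by
      have h8 : (Polynomial.C (-4) : Polynomial ℚ) = -4 := by
        rw [Polynomial.C_neg]; congr 1
      rw [h8, Polynomial.C_0, Polynomial.C_1]; ring
    rw [this]
    exact Polynomial.leadingCoeff_quadratic (by norm_num)
  rw [h4] at hlc
  have h5 : V.leadingCoeff ≠ 0 := by simpa using hV
  have h6 : 0 < V.leadingCoeff ^ 2 := by positivity
  have h7 : 0 ≤ U.leadingCoeff ^ 2 := by positivity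
  linarith

end Q2.V4S
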