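import Pool.Agent.Q2.V4W
import Pool.Agent.Q2.V4Series

set_option autoImplicit false
open CategoryTheory CategoryTheory.MonoidalCategory CategoryTheory.Limits

namespace Q2.V4

instance wp_fd (n : ℕ) : FiniteDimensional k (Wp n).V :=
  inferInstanceAs (FiniteDimensional k ((Fin (n+1) → k) × (Fin n → k)))

instance wm_fd (n : ℕ) : FiniteDimensional k (Wm n).V :=
  inferInstanceAs (FiniteDimensional k ((Fin n → k) × (Fin (n+1) → k)))

/-- the modules Ω^s k -/
noncomputable def W : ℤ → Rep.{0} k G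
  | Int.ofNat n => Wp n
  | Int.negSucc n => Wm (n+1)

instance w_fd (s : ℤ) : FiniteDimensional k (W s).V := by
  cases s with
  | ofNat n => exact wp_fd n
  | negSucc n => exact wm_fd (n+1)

theorem dl_W (s : ℤ) : dl (W s) = 2 * |s| + 1 := by
  cases s with
  | ofNat n =>
    change dl (Wp n) = _
    rw [dl_Wp]
    simp
  | negSucc n =>
    change dl (Wm (n+1)) = _
    rw [dl_Wm, Int.negSucc_eq, abs_neg, abs_of_nonneg (by positivity)]
    push_cast; ring

theorem unit_iso : Nonempty (𝟙_ (Rep.{0} k G) ≅ Wp 0) := by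
  let f : 𝟙_ (Rep.{0} k G) ⟶ Wp 0 := mkHom _ _
    (LinearMap.inl k (Fin 1 → k) (Fin 0 → k) ∘ₗ LinearMap.toSpanSingleton k (Fin 1 → k) 1)
    (by
      intro v
      refine Eq.trans ?_ (wp_opx 0 _).symm
      have : opx (𝟙_ (Rep.{0} k G)) v = 0 := by
        change v + v = 0
        exact char2 (V := k) v
      rw [this, map_zero]
      refine Prod.ext rfl (Subsingleton.elim _ _))
    (by
      intro v
      refine Eq.trans ?_ (wp_opy 0 _).symm
      have : opy (𝟙_ (Rep.{0} k G)) v = 0 := by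
        change v + v = 0
        exact char2 (V := k) v
      rw [this, map_zero]
      refine Prod.ext rfl (Subsingleton.elim _ _))
  have hf : ∀ c : k, f.hom c = (c • (1 : Fin 1 → k), 0) := fun _ => rfl
  apply iso_of_bij f
  constructor
  · intro c d h
    rw [hf, hf] at h
    have h1 := congrFun (congrArg Prod.fst h) 0
    simpa using h1
  · rintro ⟨u, v⟩
    refine ⟨u 0, ?_⟩
    rw [hf]
    refine Prod.ext ?_ (Subsingleton.elim _ _)
    funext i
    rw [Subsingleton.elim i 0]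
    simp

theorem wm_zero_iso : Nonempty (Wm 0 ≅ Wp 0) := by
  let f : Wm 0 ⟶ Wp 0 := mkHom _ _
    (LinearMap.prod (LinearMap.snd k (Fin 0 → k) (Fin 1 → k)) (LinearMap.fst k (Fin 0 → k) (Fin 1 → k)))
    (by
      intro v
      rw [wm_opx]
      refine Eq.trans ?_ (wp_opx 0 _).symm
      refine Prod.ext ?_ (Subsingleton.elim _ _)
      change (Fin.cons 0 v.1 : Fin 1 → k) = 0
      funext i
      have hi : i = 0 := Subsingleton.elim (α := Fin 1) i 0
      rw [hi]; rfl)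
    (by
      intro v
      rw [wm_opy]
      refine Eq.trans ?_ (wp_opy 0 _).symm
      refine Prod.ext ?_ (Subsingleton.elim _ _)
      change (Fin.snoc v.1 0 : Fin 1 → k) = 0
      funext i
      have hi : i = 0 := Subsingleton.elim (α := Fin 1) i 0
      rw [hi]; rfl)
  have hf : ∀ v : (Fin 0 → k) × (Fin 1 → k), f.hom v = (v.2, v.1) := fun _ => rfl
  apply iso_of_bij f
  constructor
  · rintro ⟨u, v⟩ ⟨u', v'⟩ h
    rw [hf, hf] at h
    exact Prod.ext (Subsingleton.elim _ _) (congrArg Prod.fst h)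
  · rintro ⟨u, v⟩
    exact ⟨(v, u), rfl⟩

theorem omega_step {A P C : Rep.{0} k G} (i : A ⟶ P) (p : P ⟶ C) (h : SES i p)
    (hP : Projective P) [FiniteDimensional k A.V] [FiniteDimensional k P.V]
    [FiniteDimensional k C.V] : StEq (C ⊗ Wp 1) A := by
  have h1 := ((wpSES 0).tensor C)
  obtain ⟨e⟩ := unit_iso
  let e' : Wp 0 ⊗ C ≅ C := (whiskerRightIso e C).symm ≪≫ λ_ C
  have h2 := h1.comp_iso e'
  have hpr : Projective (fr (Fin (0+1) → k) ⊗ C) := proj_tensor_right _ _ inferInstance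
  obtain ⟨e2⟩ := schanuel _ _ _ _ hpr hP h2 h
  have h3 : StEq (Wp 1 ⊗ C) A := ⟨P, _, hP, hpr, inferInstance, inferInstance, ⟨e2⟩⟩
  exact (StEq.of_iso (β_ C (Wp 1))).trans h3

theorem W_I (s : ℤ) : StEq (W s ⊗ Wp 1) (W (s+1)) := by
  cases s with
  | ofNat n =>
    exact omega_step (wpIota n) (wpPi n) (wpSES n) inferInstance
  | negSucc n =>
    have h := omega_step (wmIota n) (wmPi n) (wmSES n) inferInstance
    cases n with
    | zero =>
      obtain ⟨e⟩ := wm_zero_iso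
      exact h.trans (StEq.of_iso e)
    | succ n => exact h

theorem J_I : StEq (Wm 1 ⊗ Wp 1) (𝟙_ (Rep.{0} k G)) := by
  obtain ⟨e⟩ := unit_iso
  have h1 : StEq (Wm 1 ⊗ Wp 1) (W 0) := W_I (Int.negSucc 0)
  have h2 : StEq (W 0) (𝟙_ (Rep.{0} k G)) := StEq.of_iso e.symm
  exact h1.trans h2

theorem W_J (s : ℤ) : StEq (W s ⊗ Wm 1) (W (s-1)) := by
  have h1 : StEq (W (s-1) ⊗ Wp 1) (W s) := by
    have := W_I (s-1)
    rwa [sub_add_cancel] at this
  have h2 := h1.symm.tensor (Wm 1)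
  refine h2.trans ?_
  have e : (W (s-1) ⊗ Wp 1) ⊗ Wm 1 ≅ (Wm 1 ⊗ Wp 1) ⊗ W (s-1) :=
    (α_ _ _ _) ≪≫ β_ _ _ ≪≫ whiskerRightIso (β_ _ _) _
  exact (StEq.of_iso e).trans ((J_I.tensor (W (s-1))).trans (StEq.of_iso (λ_ _)))

/-- the module -/
noncomputable def M : Rep.{0} k G := Wp 1 ⊞ Wm 1

instance m_fd : FiniteDimensional k M.V := biprod_fd _ _

/-- tensoring with M -/
noncomputable def T (X : Rep.{0} k G) : Rep.{0} k G := X ⊗ M

theorem iter_fd (n : ℕ) (X : Rep.{0} k G) (h : FiniteDimensional k X.V) :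
    FiniteDimensional k (T^[n] X).V := by
  induction n generalizing X with
  | zero => exact h
  | succ n ih =>
    rw [Function.iterate_succ_apply]
    exact ih _ (tensor_fd X M)

theorem iter_iso (n : ℕ) {X Y : Rep.{0} k G} (e : X ≅ Y) : Nonempty (T^[n] X ≅ T^[n] Y) := by
  induction n generalizing X Y with
  | zero => exact ⟨e⟩
  | succ n ih =>
    rw [Function.iterate_succ_apply, Function.iterate_succ_apply]
    exact ih (whiskerRightIso e M)

theorem iter_biprod (n : ℕ) (X Y : Rep.{0} k G) :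
    Nonempty (T^[n] (X ⊞ Y) ≅ T^[n] X ⊞ T^[n] Y) := by
  induction n generalizing X Y with
  | zero => exact ⟨Iso.refl _⟩
  | succ n ih =>
    rw [Function.iterate_succ_apply, Function.iterate_succ_apply, Function.iterate_succ_apply]
    obtain ⟨e1⟩ := iter_iso n (distr X Y M)
    obtain ⟨e2⟩ := ih (X ⊗ M) (Y ⊗ M)
    exact ⟨e1 ≪≫ e2⟩

theorem dl_iter (n : ℕ) (X : Rep.{0} k G) (s : ℤ) (hX : FiniteDimensional k X.V)
    (h : StEq X (W s)) : dl (T^[n] X) = V4S.aa n s := by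
  induction n generalizing X s with
  | zero =>
    change dl X = 2 * |s| + 1
    rw [h.dl hX inferInstance, dl_W]
  | succ n ih =>
    rw [Function.iterate_succ_apply]
    obtain ⟨e1⟩ := iter_iso n (distl X (Wp 1) (Wm 1))
    obtain ⟨e2⟩ := iter_biprod n (X ⊗ Wp 1) (X ⊗ Wm 1)
    have hf1 := iter_fd n (X ⊗ Wp 1) inferInstance
    have hf2 := iter_fd n (X ⊗ Wm 1) inferInstance
    have e3 : dl (T^[n] (T X)) = dl (T^[n] (X ⊗ Wp 1) ⊞ T^[n] (X ⊗ Wm 1)) :=
      dl_iso (e1 ≪≫ e2)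
    rw [e3, dl_biprod, ih _ (s+1) inferInstance ((h.tensor _).trans (W_I s)),
      ih _ (s-1) inferInstance ((h.tensor _).trans (W_J s))]
    rfl

theorem cn_eq (X : Rep.{0} k G) (hX : FiniteDimensional k X.V) :
    ((sInf {d : ℕ | ∃ N P' : Rep.{0} k G, Projective P' ∧
      Nonempty (X ≅ N ⊞ P') ∧ Module.finrank k N.V = d} : ℕ) : ℤ) = dl X := by
  obtain ⟨N, P, h1, h2, h3, h4, h5, h6⟩ := core_exists X hX
  set S := {d : ℕ | ∃ N P' : Rep.{0} k G, Projective P' ∧
      Nonempty (X ≅ N ⊞ P') ∧ Module.finrank k N.V = d} with hS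
  have hmem : Module.finrank k N.V ∈ S := ⟨N, P, h1, h5, rfl⟩
  apply le_antisymm
  · rw [← h6]
    exact_mod_cast Nat.sInf_le hmem
  · have := Nat.sInf_mem (⟨_, hmem⟩ : S.Nonempty)
    obtain ⟨N', P', hp, ⟨e⟩, hd⟩ := this
    rw [← hd]
    have hfd := fd_iso e hX
    have f1 := fd_left hfd
    have f2 := fd_right hfd
    rw [dl_iso e, dl_biprod, dl_projective P' hp f2, add_zero]
    unfold dl
    have : (0 : ℤ) ≤ nu N' := by positivity
    omega

theorem main (n : ℕ) :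
    ((sInf {d : ℕ | ∃ N P' : Rep.{0} k G, Projective P' ∧
      Nonempty ((fun X : Rep.{0} k G => X ⊗ M)^[n] (𝟙_ (Rep.{0} k G)) ≅ N ⊞ P') ∧
        Module.finrank k N.V = d} : ℕ) : ℤ) = V4S.aa n 0 := by
  have h1 : FiniteDimensional k (𝟙_ (Rep.{0} k G)).V :=
    inferInstanceAs (FiniteDimensional k k)
  obtain ⟨e⟩ := unit_iso
  have h2 : StEq (𝟙_ (Rep.{0} k G)) (W 0) := StEq.of_iso e
  rw [← dl_iter n _ 0 h1 h2]
  exact cn_eq _ (iter_fd n _ h1)

end Q2.V4
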