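import Pool.Agent.Q2.V4Free

set_option autoImplicit false
open CategoryTheory CategoryTheory.MonoidalCategory CategoryTheory.Limits

namespace Q2.V4

instance ihom_epi (Z : Rep.{0} k G) : (ihom Z).PreservesEpimorphisms where
  preserves := by
    intro X Y f hf
    rw [Rep.epi_iff_surjective] at hf ⊢
    have hs : Function.Surjective f.hom.toLinearMap := hf
    obtain ⟨t, ht⟩ := LinearMap.exists_rightInverse_of_surjective f.hom.toLinearMap
      (LinearMap.range_eq_top.2 hs)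
    intro h
    let h' : Z.V →ₗ[k] Y.V := h
    refine ⟨(t ∘ₗ h' : Z.V →ₗ[k] X.V), ?_⟩
    change f.hom.toLinearMap ∘ₗ (t ∘ₗ h') = h'
    rw [← LinearMap.comp_assoc, ht, LinearMap.id_comp]

theorem proj_tensor_left (Z P : Rep.{0} k G) (hP : Projective P) : Projective (Z ⊗ P) :=
  (ihom.adjunction Z).map_projective P hP

theorem proj_tensor_right (P Z : Rep.{0} k G) (hP : Projective P) : Projective (P ⊗ Z) :=
  Projective.of_iso (β_ Z P) (proj_tensor_left Z P hP)

instance tensor_fd (A B : Rep.{0} k G) [FiniteDimensional k A.V] [FiniteDimensional k B.V] :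
    FiniteDimensional k (A ⊗ B).V :=
  inferInstanceAs (FiniteDimensional k (TensorProduct k A.V B.V))

/-- stable equivalence -/
def StEq (X Y : Rep.{0} k G) : Prop :=
  ∃ P Q : Rep.{0} k G, Projective P ∧ Projective Q ∧ FiniteDimensional k P.V ∧
    FiniteDimensional k Q.V ∧ Nonempty (X ⊞ P ≅ Y ⊞ Q)

theorem StEq.of_iso {X Y : Rep.{0} k G} (e : X ≅ Y) : StEq X Y :=
  ⟨fr PUnit, fr PUnit, inferInstance, inferInstance, inferInstance, inferInstance,
    ⟨biprod.mapIso e (Iso.refl _)⟩⟩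

theorem StEq.symm {X Y : Rep.{0} k G} (h : StEq X Y) : StEq Y X := by
  obtain ⟨P, Q, h1, h2, h3, h4, ⟨e⟩⟩ := h
  exact ⟨Q, P, h2, h1, h4, h3, ⟨e.symm⟩⟩

theorem StEq.trans {X Y Z : Rep.{0} k G} (h : StEq X Y) (h' : StEq Y Z) : StEq X Z := by
  obtain ⟨P, Q, h1, h2, h3, h4, ⟨e⟩⟩ := h
  obtain ⟨P', Q', h1', h2', h3', h4', ⟨e'⟩⟩ := h'
  refine ⟨P ⊞ P', Q' ⊞ Q, inferInstance, inferInstance, inferInstance, inferInstance, ⟨?_⟩⟩
  exact (biprod.associator X P P').symm ≪≫ biprod.mapIso e (Iso.refl _) ≪≫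
    biprod.associator Y Q P' ≪≫ biprod.mapIso (Iso.refl _) (biprod.braiding Q P') ≪≫
    (biprod.associator Y P' Q).symm ≪≫ biprod.mapIso e' (Iso.refl _) ≪≫
    biprod.associator Z Q' Q

attribute [local instance] preservesBinaryBiproducts_of_preservesBiproducts

/-- distributivity -/
noncomputable def distr (A B Z : Rep.{0} k G) : (A ⊞ B) ⊗ Z ≅ (A ⊗ Z) ⊞ (B ⊗ Z) :=
  (tensorRight Z).mapBiprod A B

/-- distributivity -/
noncomputable def distl (Z A B : Rep.{0} k G) : Z ⊗ (A ⊞ B) ≅ (Z ⊗ A) ⊞ (Z ⊗ B) :=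
  (tensorLeft Z).mapBiprod A B

theorem StEq.tensor {X Y : Rep.{0} k G} (h : StEq X Y) (Z : Rep.{0} k G)
    [FiniteDimensional k Z.V] : StEq (X ⊗ Z) (Y ⊗ Z) := by
  obtain ⟨P, Q, h1, h2, h3, h4, ⟨e⟩⟩ := h
  refine ⟨P ⊗ Z, Q ⊗ Z, proj_tensor_right _ _ h1, proj_tensor_right _ _ h2, inferInstance,
    inferInstance, ⟨?_⟩⟩
  exact (distr X P Z).symm ≪≫ whiskerRightIso e Z ≪≫ distr Y Q Z

theorem StEq.dl {X Y : Rep.{0} k G} (h : StEq X Y) (hX : FiniteDimensional k X.V)
    (hY : FiniteDimensional k Y.V) : dl X = dl Y := by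
  obtain ⟨P, Q, h1, h2, h3, h4, ⟨e⟩⟩ := h
  have := dl_iso e
  rw [dl_biprod, dl_biprod, dl_projective P h1 h3, dl_projective Q h2 h4] at this
  simpa using this

/-- short exact sequences -/
structure SES {A B C : Rep.{0} k G} (i : A ⟶ B) (p : B ⟶ C) : Prop where
  inj : Function.Injective i.hom
  exact : Function.Exact i.hom p.hom
  surj : Function.Surjective p.hom

theorem lift_inj {X B Q : Rep.{0} k G} (j : B ⟶ Q) (hj : Function.Injective j.hom)
    (f : X ⟶ Q) (hf : ∀ x, ∃ b, j.hom b = f.hom x) : ∃ κ : X ⟶ B, ∀ x, j.hom (κ.hom x) = f.hom x := by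
  have hj' : Function.Injective j.hom.toLinearMap := hj
  let e := LinearEquiv.ofInjective j.hom.toLinearMap hj'
  let c : X.V →ₗ[k] LinearMap.range j.hom.toLinearMap :=
    LinearMap.codRestrict _ f.hom.toLinearMap (fun x => hf x)
  let κ0 : X.V →ₗ[k] B.V := e.symm.toLinearMap ∘ₗ c
  have hκ : ∀ x, j.hom (κ0 x) = f.hom x := by
    intro x
    have : e (e.symm (c x)) = c x := e.apply_symm_apply _
    exact congrArg Subtype.val this
  refine ⟨mkHom X B κ0 ?_ ?_, hκ⟩
  · intro v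
    apply hj
    rw [hκ, hom_opx, hom_opx, hκ]
  · intro v
    apply hj
    rw [hκ, hom_opy, hom_opy, hκ]

theorem schanuel {A B P Q C : Rep.{0} k G} (i : A ⟶ P) (p : P ⟶ C) (j : B ⟶ Q) (q : Q ⟶ C)
    (hP : Projective P) (hQ : Projective Q) (h1 : SES i p) (h2 : SES j q) :
    Nonempty (A ⊞ Q ≅ B ⊞ P) := by
  have ep : Epi p := (Rep.epi_iff_surjective p).2 h1.surj
  have eq : Epi q := (Rep.epi_iff_surjective q).2 h2.surj
  let h : P ⟶ Q := Projective.factorThru p q
  let l : Q ⟶ P := Projective.factorThru q p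
  have hh : ∀ x, q.hom (h.hom x) = p.hom x := by
    intro x
    have : (h ≫ q).hom x = p.hom x := by rw [Projective.factorThru_comp]
    exact this
  have hl : ∀ x, p.hom (l.hom x) = q.hom x := by
    intro x
    have : (l ≫ p).hom x = q.hom x := by rw [Projective.factorThru_comp]
    exact this
  let f1 : prd A Q ⟶ A := Rep.ofHom (.fst k A.ρ Q.ρ)
  let f2 : prd A Q ⟶ Q := Rep.ofHom (.snd k A.ρ Q.ρ)
  let Θ : prd A Q ⟶ P := f1 ≫ i - f2 ≫ l
  have hΘ : ∀ (a : A.V) (z : Q.V), Θ.hom (a, z) = i.hom a - l.hom z := fun _ _ => rfl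
  let Ξ : prd A Q ⟶ Q := f2 + Θ ≫ h
  have hΞ : ∀ (a : A.V) (z : Q.V), Ξ.hom (a, z) = z + h.hom (i.hom a - l.hom z) := fun _ _ => rfl
  have hpi : ∀ a, p.hom (i.hom a) = 0 := h1.exact.apply_apply_eq_zero
  have hqj : ∀ a, q.hom (j.hom a) = 0 := h2.exact.apply_apply_eq_zero
  obtain ⟨κ, hκ⟩ := lift_inj j h2.inj Ξ (by
    rintro ⟨a, z⟩
    have : q.hom (Ξ.hom (a, z)) = 0 := by
      rw [hΞ, map_add, hh, map_sub, hpi, hl, zero_sub, add_neg_cancel]
    exact (h2.exact _).1 this)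
  let F : prd A Q ⟶ prd B P := Rep.ofHom (Representation.IntertwiningMap.prod κ.hom Θ.hom)
  have hF : ∀ x, F.hom x = (κ.hom x, Θ.hom x) := fun _ => rfl
  have hb : Function.Bijective F.hom := by
    constructor
    · rw [injective_iff_map_eq_zero]
      rintro ⟨a, z⟩ hx
      rw [hF] at hx
      have e1 : κ.hom (a, z) = 0 := congrArg Prod.fst hx
      have e2 : Θ.hom (a, z) = 0 := congrArg Prod.snd hx
      have e3 : Ξ.hom (a, z) = 0 := by rw [← hκ, e1, map_zero]
      rw [hΘ] at e2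
      rw [hΞ, e2, map_zero, add_zero] at e3
      rw [e3, map_zero, sub_zero] at e2
      have e4 : a = 0 := h1.inj (by rw [e2, map_zero])
      rw [e3, e4]; rfl
    · rintro ⟨b, u⟩
      let z : Q.V := j.hom b - h.hom u
      have hz : p.hom (u + l.hom z) = 0 := by
        rw [map_add, hl, map_sub, hqj, hh, zero_sub, add_neg_cancel]
      obtain ⟨a, ha⟩ := (h1.exact _).1 hz
      refine ⟨(a, z), ?_⟩
      rw [hF]
      have e2 : Θ.hom (a, z) = u := by rw [hΘ, ha, add_sub_cancel_right]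
      have e3 : Ξ.hom (a, z) = j.hom b := by
        rw [hΞ, ha, add_sub_cancel_right]
        exact sub_add_cancel _ _
      have e1 : κ.hom (a, z) = b := h2.inj (by rw [hκ, e3])
      rw [e1, e2]
  obtain ⟨e⟩ := iso_of_bij F hb
  obtain ⟨e1⟩ := prd_iso A Q
  obtain ⟨e2⟩ := prd_iso B P
  exact ⟨e1 ≪≫ e ≪≫ e2.symm⟩

theorem SES.tensor {A B C : Rep.{0} k G} {i : A ⟶ B} {p : B ⟶ C} (h : SES i p)
    (Z : Rep.{0} k G) : SES (i ▷ Z) (p ▷ Z) where
  inj := by
    have : Function.Injective i.hom.toLinearMap := h.inj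
    exact Module.Flat.rTensor_preserves_injective_linearMap i.hom.toLinearMap this
  exact := by
    have h1 : Function.Exact i.hom.toLinearMap p.hom.toLinearMap := h.exact
    exact rTensor_exact Z.V h1 h.surj
  surj := by
    exact LinearMap.rTensor_surjective Z.V (g := p.hom.toLinearMap) h.surj

theorem SES.comp_iso {A B C D : Rep.{0} k G} {i : A ⟶ B} {p : B ⟶ C} (h : SES i p)
    (e : C ≅ D) : SES i (p ≫ e.hom) where
  inj := h.inj
  exact := by
    intro y
    rw [← h.exact y]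
    have : (p ≫ e.hom).hom y = isoLin e (p.hom y) := rfl
    rw [this, LinearEquiv.map_eq_zero_iff]
  surj := by
    have : ∀ y, (p ≫ e.hom).hom y = isoLin e (p.hom y) := fun _ => rfl
    intro z
    obtain ⟨y, hy⟩ := h.surj ((isoLin e).symm z)
    exact ⟨y, by rw [this, hy, LinearEquiv.apply_symm_apply]⟩

end Q2.V4
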