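import Pool.Agent.Q2.V4Stab

set_option autoImplicit false
open CategoryTheory CategoryTheory.MonoidalCategory CategoryTheory.Limits

namespace Q2.V4

/-! ### The modules of odd dimension, positive side -/

section
variable (n : ℕ)

/-- x -/
def wpX : ((Fin (n+1) → k) × (Fin n → k)) →ₗ[k] ((Fin (n+1) → k) × (Fin n → k)) where
  toFun v := (0, v.1 ∘ Fin.succ)
  map_add' u v := by ext <;> simp
  map_smul' c v := by ext <;> simp

/-- y -/
def wpY : ((Fin (n+1) → k) × (Fin n → k)) →ₗ[k] ((Fin (n+1) → k) × (Fin n → k)) where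
  toFun v := (0, v.1 ∘ Fin.castSucc)
  map_add' u v := by ext <;> simp
  map_smul' c v := by ext <;> simp

/-- Ω^n k -/
noncomputable abbrev Wp : Rep.{0} k G :=
  Rep.of (mkRho (wpX n) (wpY n) (fun _ => rfl) (fun _ => rfl) (fun _ => rfl))

theorem wp_opx (v : (Fin (n+1) → k) × (Fin n → k)) : opx (Wp n) v = (0, v.1 ∘ Fin.succ) :=
  mkRho_opx _ _ _ _ _ _
theorem wp_opy (v : (Fin (n+1) → k) × (Fin n → k)) : opy (Wp n) v = (0, v.1 ∘ Fin.castSucc) :=
  mkRho_opy _ _ _ _ _ _

theorem dl_Wp : dl (Wp n) = 2 * n + 1 := by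
  have h0 : opn (Wp n) = 0 := by
    apply LinearMap.ext
    intro v
    rw [opn_apply, wp_opy, wp_opx]
    rfl
  unfold dl nu
  rw [h0, LinearMap.range_zero, finrank_bot]
  have : Module.finrank k (Wp n).V = (n + 1) + n := by
    change Module.finrank k ((Fin (n+1) → k) × (Fin n → k)) = _
    rw [Module.finrank_prod]; simp
  rw [this]
  push_cast
  ring

/-- inclusion -/
def wpIotaL : ((Fin (n+2) → k) × (Fin (n+1) → k)) →ₗ[k]
    ((Fin (n+1) → k) × (Fin (n+1) → k) × (Fin (n+1) → k) × (Fin (n+1) → k)) where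
  toFun v := (0, v.1 ∘ Fin.castSucc, v.1 ∘ Fin.succ, v.2)
  map_add' u v := by ext <;> simp
  map_smul' c v := by ext <;> simp

/-- projection -/
def wpPiL : ((Fin (n+1) → k) × (Fin (n+1) → k) × (Fin (n+1) → k) × (Fin (n+1) → k)) →ₗ[k]
    ((Fin (n+1) → k) × (Fin n → k)) where
  toFun v := (v.1, v.2.1 ∘ Fin.succ + v.2.2.1 ∘ Fin.castSucc)
  map_add' u v := by ext <;> simp; abel
  map_smul' c v := by ext <;> simp

/-- inclusion -/
noncomputable def wpIota : Wp (n+1) ⟶ fr (Fin (n+1) → k) :=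
  mkHom _ _ (wpIotaL n)
    (by intro v; rw [wp_opx]; exact (fr_opx _ (wpIotaL n v)).symm)
    (by intro v; rw [wp_opy]; exact (fr_opy _ (wpIotaL n v)).symm)

/-- projection -/
noncomputable def wpPi : fr (Fin (n+1) → k) ⟶ Wp n :=
  mkHom _ _ (wpPiL n)
    (by
      intro v; rw [fr_opx]; refine Eq.trans ?_ (wp_opx _ _).symm
      change ((0 : Fin (n+1) → k), v.1 ∘ Fin.succ + (0 : Fin (n+1) → k) ∘ Fin.castSucc) =
        (0, v.1 ∘ Fin.succ)
      ext <;> simp)
    (by
      intro v; rw [fr_opy]; refine Eq.trans ?_ (wp_opy _ _).symm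
      change ((0 : Fin (n+1) → k), (0 : Fin (n+1) → k) ∘ Fin.succ + v.1 ∘ Fin.castSucc) =
        (0, v.1 ∘ Fin.castSucc)
      ext <;> simp)

theorem wpSES : SES (wpIota n) (wpPi n) where
  inj := by
    rw [injective_iff_map_eq_zero]
    rintro ⟨u, v⟩ h
    have h' : ((0 : Fin (n+1) → k), u ∘ Fin.castSucc, u ∘ Fin.succ, v) = 0 := h
    have h1 : u ∘ Fin.succ = 0 := congrArg (fun t => t.2.2.1) h'
    have h2 : u ∘ Fin.castSucc = 0 := congrArg (fun t => t.2.1) h'
    have h3 : v = 0 := congrArg (fun t => t.2.2.2) h'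
    have h4 : u = 0 := by
      funext i
      refine Fin.cases ?_ (fun j => ?_) i
      · exact congrFun h2 0
      · exact congrFun h1 j
    rw [h3, h4]; rfl
  exact := by
    rintro ⟨α, β, γ, δ⟩
    constructor
    · intro h
      have h' : (α, β ∘ Fin.succ + γ ∘ Fin.castSucc) = 0 := h
      have h1 : α = 0 := congrArg Prod.fst h'
      have h2 : β ∘ Fin.succ + γ ∘ Fin.castSucc = 0 := congrArg Prod.snd h'
      refine ⟨(Fin.cons (β 0) γ, δ), ?_⟩
      change ((0 : Fin (n+1) → k), (Fin.cons (β 0) γ : Fin (n+2) → k) ∘ Fin.castSucc,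
        (Fin.cons (β 0) γ : Fin (n+2) → k) ∘ Fin.succ, δ) = (α, β, γ, δ)
      rw [h1]
      have e1 : (Fin.cons (β 0) γ : Fin (n+2) → k) ∘ Fin.succ = γ := by
        funext j; simp
      have e2 : (Fin.cons (β 0) γ : Fin (n+2) → k) ∘ Fin.castSucc = β := by
        funext j
        refine Fin.cases ?_ (fun i => ?_) j
        · simp
        · have h3 := congrFun h2 i
          simp only [Pi.add_apply, Function.comp_apply, Pi.zero_apply] at h3
          have h4 : (Fin.cons (β 0) γ : Fin (n+2) → k) (Fin.castSucc (Fin.succ i)) =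
              γ (Fin.castSucc i) := by
            rw [Fin.castSucc_succ, Fin.cons_succ]
          change (Fin.cons (β 0) γ : Fin (n+2) → k) (Fin.castSucc (Fin.succ i)) = _
          rw [h4]
          have h5 := char2 (γ (Fin.castSucc i))
          calc γ (Fin.castSucc i) = (β (Fin.succ i) + γ (Fin.castSucc i)) +
              γ (Fin.castSucc i) := by rw [h3, zero_add]
            _ = β (Fin.succ i) := by rw [add_assoc, h5, add_zero]
      rw [e1, e2]
    · rintro ⟨⟨u, v⟩, h⟩
      rw [← h]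
      change ((0 : Fin (n+1) → k), (u ∘ Fin.castSucc) ∘ Fin.succ + (u ∘ Fin.succ) ∘ Fin.castSucc)
        = 0
      have : (u ∘ Fin.castSucc) ∘ Fin.succ = (u ∘ Fin.succ) ∘ Fin.castSucc := by
        funext j
        simp [Fin.castSucc_succ]
      rw [this, char2]
      rfl
  surj := by
    rintro ⟨a, b⟩
    refine ⟨(a, Fin.cons 0 b, 0, 0), ?_⟩
    change (a, (Fin.cons 0 b : Fin (n+1) → k) ∘ Fin.succ +
      (0 : Fin (n+1) → k) ∘ Fin.castSucc) = (a, b)
    ext <;> simp

end

/-! ### negative side -/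
section
variable (n : ℕ)

/-- x -/
def wmX : ((Fin n → k) × (Fin (n+1) → k)) →ₗ[k] ((Fin n → k) × (Fin (n+1) → k)) where
  toFun v := (0, Fin.cons 0 v.1)
  map_add' u v := by
    apply Prod.ext
    · simp
    · funext i
      refine Fin.cases ?_ (fun j => ?_) i <;> simp
  map_smul' c v := by
    apply Prod.ext
    · simp
    · funext i
      refine Fin.cases ?_ (fun j => ?_) i <;> simp

/-- y -/
def wmY : ((Fin n → k) × (Fin (n+1) → k)) →ₗ[k] ((Fin n → k) × (Fin (n+1) → k)) where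
  toFun v := (0, Fin.snoc v.1 0)
  map_add' u v := by
    apply Prod.ext
    · simp
    · funext i
      refine Fin.lastCases ?_ (fun j => ?_) i <;> simp
  map_smul' c v := by
    apply Prod.ext
    · simp
    · funext i
      refine Fin.lastCases ?_ (fun j => ?_) i <;> simp

theorem cons_zz : (Fin.cons 0 (0 : Fin n → k) : Fin (n+1) → k) = 0 := by
  funext i
  refine Fin.cases ?_ (fun j => ?_) i <;> simp

theorem snoc_zz : (Fin.snoc (0 : Fin n → k) 0 : Fin (n+1) → k) = 0 := by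
  funext i
  refine Fin.lastCases ?_ (fun j => ?_) i <;> simp

/-- Ω^{-n} k -/
noncomputable abbrev Wm : Rep.{0} k G :=
  Rep.of (mkRho (wmX n) (wmY n)
    (fun _ => Prod.ext rfl (cons_zz n)) (fun _ => Prod.ext rfl (snoc_zz n))
    (fun _ => Prod.ext rfl ((cons_zz n).trans (snoc_zz n).symm)))

theorem wm_opx (v : (Fin n → k) × (Fin (n+1) → k)) : opx (Wm n) v = (0, Fin.cons 0 v.1) :=
  mkRho_opx _ _ _ _ _ _
theorem wm_opy (v : (Fin n → k) × (Fin (n+1) → k)) : opy (Wm n) v = (0, Fin.snoc v.1 0) :=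
  mkRho_opy _ _ _ _ _ _

theorem dl_Wm : dl (Wm n) = 2 * n + 1 := by
  have h0 : opn (Wm n) = 0 := by
    apply LinearMap.ext
    intro v
    rw [opn_apply, wm_opy, wm_opx]
    exact Prod.ext rfl (cons_zz n)
  unfold dl nu
  rw [h0, LinearMap.range_zero, finrank_bot]
  have : Module.finrank k (Wm n).V = n + (n + 1) := by
    change Module.finrank k ((Fin n → k) × (Fin (n+1) → k)) = _
    rw [Module.finrank_prod]; simp
  rw [this]
  push_cast
  ring

/-- inclusion -/
def wmIotaL : ((Fin n → k) × (Fin (n+1) → k)) →ₗ[k]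
    ((Fin (n+1) → k) × (Fin (n+1) → k) × (Fin (n+1) → k) × (Fin (n+1) → k)) where
  toFun v := (0, Fin.snoc v.1 0, Fin.cons 0 v.1, v.2)
  map_add' u v := by
    refine Prod.ext (by simp) (Prod.ext ?_ (Prod.ext ?_ rfl))
    · funext i
      refine Fin.lastCases ?_ (fun j => ?_) i <;> simp
    · funext i
      refine Fin.cases ?_ (fun j => ?_) i <;> simp
  map_smul' c v := by
    refine Prod.ext (by simp) (Prod.ext ?_ (Prod.ext ?_ rfl))
    · funext i
      refine Fin.lastCases ?_ (fun j => ?_) i <;> simp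
    · funext i
      refine Fin.cases ?_ (fun j => ?_) i <;> simp

/-- projection -/
def wmPiL : ((Fin (n+1) → k) × (Fin (n+1) → k) × (Fin (n+1) → k) × (Fin (n+1) → k)) →ₗ[k]
    ((Fin (n+1) → k) × (Fin (n+2) → k)) where
  toFun v := (v.1, Fin.cons 0 v.2.1 + Fin.snoc v.2.2.1 0)
  map_add' u v := by
    refine Prod.ext rfl ?_
    have h1 : (Fin.cons 0 (u + v).2.1 : Fin (n+2) → k) = Fin.cons 0 u.2.1 + Fin.cons 0 v.2.1 := by
      funext i
      refine Fin.cases ?_ (fun j => ?_) i <;> simp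
    have h2 : (Fin.snoc (u + v).2.2.1 0 : Fin (n+2) → k) =
        Fin.snoc u.2.2.1 0 + Fin.snoc v.2.2.1 0 := by
      funext i
      refine Fin.lastCases ?_ (fun j => ?_) i <;> simp
    change (Fin.cons 0 (u + v).2.1 : Fin (n+2) → k) + Fin.snoc (u + v).2.2.1 0 =
      (Fin.cons 0 u.2.1 + Fin.snoc u.2.2.1 0) + (Fin.cons 0 v.2.1 + Fin.snoc v.2.2.1 0)
    rw [h1, h2]; abel
  map_smul' c v := by
    refine Prod.ext rfl ?_
    have h1 : (Fin.cons 0 (c • v).2.1 : Fin (n+2) → k) = c • Fin.cons 0 v.2.1 := by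
      funext i
      refine Fin.cases ?_ (fun j => ?_) i <;> simp
    have h2 : (Fin.snoc (c • v).2.2.1 0 : Fin (n+2) → k) = c • Fin.snoc v.2.2.1 0 := by
      funext i
      refine Fin.lastCases ?_ (fun j => ?_) i <;> simp
    change (Fin.cons 0 (c • v).2.1 : Fin (n+2) → k) + Fin.snoc (c • v).2.2.1 0 =
      c • (Fin.cons 0 v.2.1 + Fin.snoc v.2.2.1 0)
    rw [h1, h2, smul_add]

/-- inclusion -/
noncomputable def wmIota : Wm n ⟶ fr (Fin (n+1) → k) :=
  mkHom _ _ (wmIotaL n)
    (by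
      intro v; rw [wm_opx]
      refine Eq.trans ?_ (fr_opx _ _).symm
      change ((0 : Fin (n+1) → k), (Fin.snoc (0 : Fin n → k) 0 : Fin (n+1) → k),
        (Fin.cons 0 (0 : Fin n → k) : Fin (n+1) → k), (Fin.cons 0 v.1 : Fin (n+1) → k)) =
        (0, 0, 0, (Fin.cons 0 v.1 : Fin (n+1) → k))
      rw [cons_zz, snoc_zz])
    (by
      intro v; rw [wm_opy]
      refine Eq.trans ?_ (fr_opy _ _).symm
      change ((0 : Fin (n+1) → k), (Fin.snoc (0 : Fin n → k) 0 : Fin (n+1) → k),
        (Fin.cons 0 (0 : Fin n → k) : Fin (n+1) → k), (Fin.snoc v.1 0 : Fin (n+1) → k)) =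
        (0, 0, 0, (Fin.snoc v.1 0 : Fin (n+1) → k))
      rw [cons_zz, snoc_zz])

/-- projection -/
noncomputable def wmPi : fr (Fin (n+1) → k) ⟶ Wm (n+1) :=
  mkHom _ _ (wmPiL n)
    (by
      intro v; rw [fr_opx]; refine Eq.trans ?_ (wm_opx _ _).symm
      change ((0 : Fin (n+1) → k), (Fin.cons 0 v.1 : Fin (n+2) → k) +
        Fin.snoc (0 : Fin (n+1) → k) 0) = (0, Fin.cons 0 v.1)
      rw [snoc_zz, add_zero])
    (by
      intro v; rw [fr_opy]; refine Eq.trans ?_ (wm_opy _ _).symm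
      change ((0 : Fin (n+1) → k), (Fin.cons 0 (0 : Fin (n+1) → k) : Fin (n+2) → k) +
        Fin.snoc v.1 0) = (0, Fin.snoc v.1 0)
      rw [cons_zz, zero_add])

theorem wmSES : SES (wmIota n) (wmPi n) where
  inj := by
    rw [injective_iff_map_eq_zero]
    rintro ⟨u, v⟩ h
    have h' : ((0 : Fin (n+1) → k), (Fin.snoc u 0 : Fin (n+1) → k),
      (Fin.cons 0 u : Fin (n+1) → k), v) = 0 := h
    have h1 : (Fin.cons 0 u : Fin (n+1) → k) = 0 := congrArg (fun t => t.2.2.1) h'
    have h3 : v = 0 := congrArg (fun t => t.2.2.2) h'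
    have h4 : u = 0 := by
      funext i
      have := congrFun h1 (Fin.succ i)
      rw [Fin.cons_succ] at this
      exact this
    rw [h3, h4]; rfl
  exact := by
    rintro ⟨α, β, γ, δ⟩
    constructor
    · intro h
      have h' : (α, (Fin.cons 0 β : Fin (n+2) → k) + Fin.snoc γ 0) = 0 := h
      have h1 : α = 0 := congrArg Prod.fst h'
      have h2 : (Fin.cons 0 β : Fin (n+2) → k) + Fin.snoc γ 0 = 0 := congrArg Prod.snd h'
      have hc : (Fin.cons 0 β : Fin (n+2) → k) = Fin.snoc γ 0 := by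
        have h5 := char2 (Fin.snoc γ 0 : Fin (n+2) → k)
        calc (Fin.cons 0 β : Fin (n+2) → k) = (Fin.cons 0 β : Fin (n+2) → k) +
            (Fin.snoc γ 0 + Fin.snoc γ 0) := by rw [h5, add_zero]
          _ = Fin.snoc γ 0 := by rw [← add_assoc, h2, zero_add]
      -- β last = 0, γ 0 = 0, β (castSucc i) = γ (succ i)
      have hb : β (Fin.last n) = 0 := by
        have := congrFun hc (Fin.last (n+1))
        rw [Fin.snoc_last, ← Fin.succ_last, Fin.cons_succ] at this
        exact this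
      have hg : γ 0 = 0 := by
        have := congrFun hc 0
        rw [Fin.cons_zero, ← Fin.castSucc_zero, Fin.snoc_castSucc] at this
        exact this.symm
      have hbg : ∀ i : Fin n, β (Fin.castSucc i) = γ (Fin.succ i) := by
        intro i
        have := congrFun hc (Fin.succ (Fin.castSucc i))
        rw [Fin.cons_succ, ← Fin.castSucc_succ, Fin.snoc_castSucc] at this
        exact this
      refine ⟨(γ ∘ Fin.succ, δ), ?_⟩
      change ((0 : Fin (n+1) → k), (Fin.snoc (γ ∘ Fin.succ) 0 : Fin (n+1) → k),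
        (Fin.cons 0 (γ ∘ Fin.succ) : Fin (n+1) → k), δ) = (α, β, γ, δ)
      rw [h1]
      have e1 : (Fin.snoc (γ ∘ Fin.succ) 0 : Fin (n+1) → k) = β := by
        funext i
        refine Fin.lastCases ?_ (fun j => ?_) i
        · rw [Fin.snoc_last, hb]
        · rw [Fin.snoc_castSucc, hbg]; rfl
      have e2 : (Fin.cons 0 (γ ∘ Fin.succ) : Fin (n+1) → k) = γ := by
        funext i
        refine Fin.cases ?_ (fun j => ?_) i
        · rw [Fin.cons_zero, hg]
        · rw [Fin.cons_succ]; rfl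
      rw [e1, e2]
    · rintro ⟨⟨u, v⟩, h⟩
      rw [← h]
      change ((0 : Fin (n+1) → k), (Fin.cons 0 (Fin.snoc u 0 : Fin (n+1) → k) : Fin (n+2) → k) +
        Fin.snoc (Fin.cons 0 u : Fin (n+1) → k) 0) = 0
      have : (Fin.cons 0 (Fin.snoc u 0 : Fin (n+1) → k) : Fin (n+2) → k) =
          Fin.snoc (Fin.cons 0 u : Fin (n+1) → k) 0 := by
        exact Fin.cons_snoc_eq_snoc_cons 0 u 0
      rw [this, char2]
      rfl
  surj := by
    rintro ⟨a, b⟩
    refine ⟨(a, b ∘ Fin.succ, Fin.cons (b 0) 0, 0), ?_⟩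
    change (a, (Fin.cons 0 (b ∘ Fin.succ) : Fin (n+2) → k) +
      Fin.snoc (Fin.cons (b 0) 0 : Fin (n+1) → k) 0) = (a, b)
    refine Prod.ext rfl ?_
    funext i
    refine Fin.cases ?_ (fun j => ?_) i
    · simp only [Pi.add_apply, Fin.cons_zero, zero_add]
      rw [← Fin.castSucc_zero, Fin.snoc_castSucc, Fin.cons_zero]
    · simp only [Pi.add_apply, Fin.cons_succ, Function.comp_apply]
      have : (Fin.snoc (Fin.cons (b 0) 0 : Fin (n+1) → k) 0 : Fin (n+2) → k) (Fin.succ j) = 0 := by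
        refine Fin.lastCases ?_ (fun l => ?_) j
        · rw [Fin.succ_last, Fin.snoc_last]
        · rw [← Fin.castSucc_succ, Fin.snoc_castSucc, Fin.cons_succ]; rfl
      rw [this, add_zero]

end

end Q2.V4
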